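import Pool.Agent.CR257.Cor2
import Pool.Agent.CR257.Bridge
import Pool.Agent.CR257.TaskMul
import Pool.Agent.CR257.Witt
import Pool.Agent.CR257.Orb
import Pool.Agent.CR257.PL
import Pool.Agent.CR257.Twist
import Pool.Agent.CR257.Block
import Pool.Agent.CR257.Norm
import Pool.Agent.CR257.FC
import Pool.Agent.CR257.Dwork
import Pool.Agent.CR257.Sub
import Pool.Agent.CR257.Val
import Pool.Agent.CR257.Psi
import Pool.Agent.CR257.Surj
import Pool.Agent.CR257.Vmul
import Pool.Agent.CR257.UnitH
import Pool.Agent.CR257.Filt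
import Pool.Agent.CR257.UnitD
import Pool.Agent.CR257.Up
import Pool.Agent.CR257.Red
import Pool.Agent.CR257.Cop
import Pool.Agent.CR257.Fold
import Pool.Agent.CR257.Cyc
import Pool.Agent.CR257.Card
import Pool.Agent.CR257.Chain
import Pool.Agent.CR257.TaskFib

/-!
# MP_d6eb29_al: circulant matrices with prescribed unit determinant over chain rings

Let `R` be a finite commutative chain ring with residue field of `q` elements, `p` the prime
dividing `q`, `e` the nilpotency index, and `n = p^k m` with `p ∤ m`. A unit `a` is the determinant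
of a circulant `n × n` matrix if and only if it lies in
`Ghost p k R = {b₀^(p^k) + p b₁^(p^(k-1)) + ... + p^k b_k : b_j ∈ R}`, and then the number of these
matrices is `q^(e n - m) ∏_{d ∣ m} (q^(ord_d q) - 1)^(φ(d)/ord_d q)` divided by the number of units
in `Ghost p k R`.
-/

set_option autoImplicit false

namespace Pool.Agent.Results.MP_d6eb29_al.UnitDeterminants

/-- The circulant matrix with first row `a 0, a 1, ..., a (n - 1)`: rows and columns are indexed by
the residues modulo `n`, the entry `(i, j)` is `a (j - i)`. -/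
def cir {n : ℕ} {R : Type} (a : ZMod n → R) : Matrix (ZMod n) (ZMod n) R :=
  Matrix.of fun i j => a (j - i)

/-- `c_n(R, y)`: the number of circulant `n × n` matrices over `R` with determinant `y`. -/
noncomputable def c (n : ℕ) [NeZero n] (R : Type) [CommRing R] (y : R) : ℕ :=
  {A : Matrix (ZMod n) (ZMod n) R | (∃ a : ZMod n → R, A = cir a) ∧ A.det = y}.ncard

/-- `{b₀^(p^k) + p b₁^(p^(k-1)) + ... + p^k b_k : b_j ∈ R}` -/
def Ghost (p k : ℕ) (R : Type) [CommRing R] : Set R :=
  {y | ∃ b : ℕ → R, y = ∑ j ∈ Finset.range (k + 1), (p : R) ^ j * b j ^ (p ^ (k - j))}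

/-- A commutative finite chain ring is local with principal maximal ideal; for a generator `γ` of
the maximal ideal, `e` its nilpotency index, `q` the number of elements of the residue field, `p`
the prime dividing `q`, and `n = p^k m`, `p ∤ m`:
(1) `c_n(R, a) = 0` for every `a` outside `Ghost p k R`;
(2) for a unit `a` in `Ghost p k R`, `c_n(R, a)` times the number of units in `Ghost p k R` is
`q^(e n - m) ∏_{d ∣ m} (q^(ord_d q) - 1)^(φ(d)/ord_d q)`;
(3) if `p R` is the maximal ideal then `Ghost p k R = R`, with `(q - 1) q^(e - 1)` units;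
(4) if `p = 0` in `R` then `Ghost p k R` is the set of the `p^k`-th powers, with
`(q - 1) q^(⌈e / p^k⌉ - 1)` units, and if moreover `γ ≠ 0` and `k ≥ 1` then the unit `1 + γ` has
`c_n(R, 1 + γ) = 0`. -/
theorem result (R : Type) [CommRing R] [Finite R] [Nontrivial R]
    (hR : ∀ I J : Ideal R, I ≤ J ∨ J ≤ I) :
    ∃ _ : IsLocalRing R,
      (∃ γ : R, IsLocalRing.maximalIdeal R = Ideal.span {γ} ∧ IsNilpotent γ) ∧
      ∀ (γ : R) (e q p k m n : ℕ) [NeZero n],
        IsLocalRing.maximalIdeal R = Ideal.span {γ} →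
        IsLeast {i : ℕ | 1 ≤ i ∧ γ ^ i = 0} e →
        Nat.card (IsLocalRing.ResidueField R) = q → p.Prime → p ∣ q → ¬ p ∣ m →
        n = p ^ k * m →
        (∀ a : R, a ∉ Ghost p k R → c n R a = 0) ∧
        (∀ a ∈ Ghost p k R, IsUnit a →
          c n R a * {z : R | z ∈ Ghost p k R ∧ IsUnit z}.ncard =
            q ^ (e * n - m) * ∏ d ∈ m.divisors,
              (q ^ orderOf (q : ZMod d) - 1) ^ (Nat.totient d / orderOf (q : ZMod d))) ∧
        (IsLocalRing.maximalIdeal R = Ideal.span {(p : R)} → (∀ y : R, y ∈ Ghost p k R) ∧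
          {z : R | z ∈ Ghost p k R ∧ IsUnit z}.ncard = (q - 1) * q ^ (e - 1)) ∧
        ((p : R) = 0 → (∀ y : R, y ∈ Ghost p k R ↔ ∃ b : R, y = b ^ (p ^ k)) ∧
          {z : R | z ∈ Ghost p k R ∧ IsUnit z}.ncard =
            (q - 1) * q ^ ((e + p ^ k - 1) / p ^ k - 1) ∧
          (γ ≠ 0 → 1 ≤ k → IsUnit (1 + γ) ∧ c n R (1 + γ) = 0)) := by
  have hMul : CR257.TaskMul := CR257.taskMul
  have hBr : CR257.TaskBridge := CR257.taskBridge
  have hWitt : CR257.TaskWitt := CR257.Witt.main
  have hPL : CR257.TaskPL := CR257.PL.main CR257.Orb.main hBr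
  have hNorm : CR257.TaskNorm := CR257.Norm.main CR257.Twist.main CR257.Block.main
  have hFC : CR257.TaskFC := CR257.FC.main hNorm hPL hMul
  have hDw : CR257.TaskDwork := CR257.Dwork.main hWitt
  have hSub : CR257.TaskSub := CR257.Sub.main hFC hDw hWitt hMul
  have hVal : CR257.TaskVal := CR257.Val.main hBr
  have hPsi : CR257.TaskPsi := CR257.Psi.main hFC hDw hWitt hVal hPL
  have hFilt : CR257.TaskFilt := CR257.Filt.main hPsi CR257.taskVmul CR257.taskSurj
    CR257.UnitH.main hMul hWitt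
  have hUnitD : CR257.TaskUnitD := CR257.UnitD.main hWitt hFilt CR257.UnitH.main hMul
  have hUp : CR257.TaskUp := CR257.Up.main hBr
  have hFib : CR257.TaskFib := CR257.taskFib hBr
  have hCop : CR257.TaskCop := CR257.Cop.main
  have hCyc : CR257.TaskCyc := CR257.Cyc.main hBr hCop
  have hFold : CR257.TaskFold := CR257.Fold.main hCop
  obtain ⟨hloc, γ₀, hγ₀, hn₀⟩ := CR257.Chain.main R hR
  refine ⟨hloc, ⟨γ₀, hγ₀, hn₀⟩, ?_⟩
  intro γ e q p k m n _ hγ he hq hp hpq hm hn
  subst hn
  subst hq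
  have h := CR257.asm hSub hUnitD hUp CR257.Red.main hFold hCyc CR257.Card.main hFib R γ e p k m
    hγ he hp hpq hm
  refine ⟨h.1, h.2, fun hpp => ⟨fun y => CR257.D_top R p k hp hpp y, ?_⟩, fun hc => ⟨fun y =>
    CR257.D_charP R p k hc y, CR257.units_charp R γ e p k hγ he hp hc, fun h0 hk => ⟨?_, ?_⟩⟩⟩
  · rw [← CR257.card_units R γ e hγ he]
    congr 1
    ext z
    exact ⟨fun h => h.2, fun h => ⟨CR257.D_top R p k hp hpp z, h⟩⟩
  · have : IsNilpotent γ := ⟨e, he.1.2⟩
    exact this.isUnit_one_add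
  · exact h.1 (1 + γ) (CR257.not_mem R γ p k hγ ⟨e, he.1.2⟩ h0 hp hk hc)

end Pool.Agent.Results.MP_d6eb29_al.UnitDeterminants
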